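import Mathlib
import Pool.Agent.X263.AL.Stm2

/-!
# Project AL: three periodic points, and infinitely many, from cycles of prime length
-/

set_option autoImplicit false

namespace Pool.Agent.X200.AL

open Finset Polynomial Pool.Agent.W277.UH
open Pool.Agent.X263.AL (S_CYC S_THREE S_INF)

universe u

theorem minPer {α : Type*} (f : α → α) (l : ℕ) (hl : l.Prime) (z : α) (h1 : f^[l] z = z)
    (h2 : f z ≠ z) : Function.minimalPeriod f z = l := by
  have h3 : Function.IsPeriodicPt f l z := h1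
  rcases (Nat.dvd_prime hl).1 h3.minimalPeriod_dvd with h | h
  · exact absurd (Function.minimalPeriod_eq_one_iff_isFixedPt.1 h) h2
  · exact h

theorem t_THREE (hC : S_CYC.{u}) : S_THREE.{u} := by
  intro d hd
  refine ⟨Nat.nth Nat.Prime (d + 2), ?_⟩
  intro K _ _ _ p q hpq hdeg
  obtain ⟨S, hS, hS2⟩ := hC K d hd p q hpq hdeg
  obtain ⟨l, hlp, hl3, hlB, hlS⟩ : ∃ l, l.Prime ∧ 3 ≤ l ∧ l ≤ Nat.nth Nat.Prime (d + 2) ∧ l ∉ S := by
    by_contra hcon
    push Not at hcon
    have h1 : (Finset.Icc 1 (d + 2)).image (Nat.nth Nat.Prime) ⊆ S := by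
      intro l hl
      rw [Finset.mem_image] at hl
      obtain ⟨i, hi, rfl⟩ := hl
      rw [Finset.mem_Icc] at hi
      refine hcon _ (Nat.prime_nth_prime i) ?_ ?_
      · have h2 : Nat.nth Nat.Prime 0 < Nat.nth Nat.Prime i :=
          Nat.nth_strictMono Nat.infinite_setOfPred_prime (by omega)
        have h3 := (Nat.prime_nth_prime 0).two_le
        omega
      · exact (Nat.nth_strictMono Nat.infinite_setOfPred_prime).monotone hi.2
    have h4 := Finset.card_le_card h1
    rw [Finset.card_image_of_injective _ (Nat.nth_strictMono Nat.infinite_setOfPred_prime).injective,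
      Nat.card_Icc] at h4
    omega
  obtain ⟨z, hz1, hz2⟩ := hS2 l hlp hlS
  have hmin := minPer _ l hlp z hz1 hz2
  refine ⟨l, by omega, hlB, fun i => (ratP1 p q d)^[i.1] z, ?_, ?_⟩
  · intro i j hij
    have hi : i.1 < Function.minimalPeriod (ratP1 p q d) z := by rw [hmin]; omega
    have hj : j.1 < Function.minimalPeriod (ratP1 p q d) z := by rw [hmin]; omega
    exact Fin.ext (Function.iterate_injOn_Iio_minimalPeriod hi hj hij)
  · intro i
    show (ratP1 p q d)^[l] ((ratP1 p q d)^[i.1] z) = _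
    rw [← Function.iterate_add_apply, add_comm, Function.iterate_add_apply, hz1]

theorem t_INF (hC : S_CYC.{u}) : S_INF.{u} := by
  intro K _ _ _ d hd p q hpq hdeg
  obtain ⟨S, hS, hS2⟩ := hC K d hd p q hpq hdeg
  have h1 : {l : ℕ | l.Prime ∧ l ∉ S}.Infinite := by
    have h2 := Nat.infinite_setOfPred_prime.sdiff S.finite_toSet
    exact h2.mono fun l hl => ⟨hl.1, fun h => hl.2 h⟩
  choose! g hg1 hg2 using hS2
  refine Set.infinite_of_injOn_mapsTo (f := fun l => g l) (s := {l : ℕ | l.Prime ∧ l ∉ S}) ?_ ?_ h1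
  · intro l hl l' hl' h
    have e1 := minPer _ l hl.1 _ (hg1 l hl.1 hl.2) (hg2 l hl.1 hl.2)
    have e2 := minPer _ l' hl'.1 _ (hg1 l' hl'.1 hl'.2) (hg2 l' hl'.1 hl'.2)
    have h' : g l = g l' := h
    rw [← e1, ← e2, h']
  · intro l hl
    exact ⟨l, hl.1.one_le, hg1 l hl.1 hl.2⟩

end Pool.Agent.X200.AL
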