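import Mathlib
import Pool.Agent.X200.Del.Pt
import Pool.Agent.X263.AL.Stm2

/-!
# Project AL, CYC: the multiplicity of a fixed point under iteration
-/

set_option autoImplicit false

namespace Pool.Agent.X200.AL

open Finset Polynomial
open Pool.Agent.X328.GN (hm it)

universe u

variable {K : Type u} [Field K]

/-- `F ↦ Q ^ d F (Y)` -/
theorem hm_cong {A : Type*} [CommRing A] [Algebra K A] (π : K[X] →ₐ[K] A) (d : ℕ) (F P Q : K[X])
    (hF : F.natDegree ≤ d) (y : A) (h : π P = y * π Q) :
    π (hm d F P Q) = π Q ^ d * aeval y F := by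
  unfold hm
  rw [map_sum, aeval_eq_sum_range' (Nat.lt_succ_of_le hF), mul_sum]
  refine sum_congr rfl fun i hi => ?_
  have hi' := Finset.mem_range.1 hi
  have e1 : π Q ^ d = π Q ^ i * π Q ^ (d - i) := by
    rw [← pow_add]; congr 1; omega
  have e2 : π (C (F.coeff i)) = algebraMap K A (F.coeff i) := by
    rw [← Polynomial.algebraMap_eq, AlgHom.commutes]
  rw [map_mul, map_mul, map_pow, map_pow, h, e1, e2, Algebra.smul_def]
  ring

/-- the congruence for the iterates -/
theorem it_cong {A : Type*} [CommRing A] [Algebra K A] (π : K[X] →ₐ[K] A) (d : ℕ) (p q : K[X])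
    (hp : p.natDegree ≤ d) (hq : q.natDegree ≤ d) (x c : K) (m : ℕ) (hm1 : 1 ≤ m)
    (hT : π (X - C x) ^ (m + 1) = 0) (s : K[X])
    (hpq : p = (X + C c * (X - C x) ^ m) * q + (X - C x) ^ (m + 1) * s) (n : ℕ) :
    ∃ e : K, (m = 1 → 1 + e = (1 + c) ^ n) ∧ (2 ≤ m → e = n * c) ∧
      π (it d p q n).1 = π (X + C e * (X - C x) ^ m) * π (it d p q n).2 := by
  induction n with
  | zero =>
    refine ⟨0, fun _ => by simp, fun _ => by simp, ?_⟩
    show π X = π _ * π 1
    simp
  | succ n ih =>
    obtain ⟨e, he1, he2, he3⟩ := ih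
    set t : A := π (X - C x) with ht
    have e3 : π (it d p q n).1 = (π X + algebraMap K A e * t ^ m) * π (it d p q n).2 := by
      rw [he3]
      congr 1
      rw [map_add, map_mul, map_pow, ← Polynomial.algebraMap_eq, AlgHom.commutes, ht]
      rfl
    set y : A := π X + algebraMap K A e * t ^ m with hy
    have hty : y - algebraMap K A x = t * (1 + algebraMap K A e * t ^ (m - 1)) := by
      have h1 : t = π X - algebraMap K A x := by
        rw [ht, map_sub, ← Polynomial.algebraMap_eq, AlgHom.commutes]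
      have h2 : t ^ m = t * t ^ (m - 1) := by
        rw [← pow_succ']; congr 1; omega
      rw [hy, h2]
      linear_combination (-1 : A) * h1
    have hP := hm_cong π d p _ _ hp y e3
    have hQ := hm_cong π d q _ _ hq y e3
    have h0 : (y - algebraMap K A x) ^ (m + 1) = 0 := by
      rw [hty, mul_pow, hT, zero_mul]
    have hpy : aeval y p = (y + algebraMap K A c * (y - algebraMap K A x) ^ m) * aeval y q := by
      conv_lhs => rw [hpq]
      simp only [map_add, map_mul, map_pow, map_sub, aeval_X, aeval_C]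
      rw [h0]
      ring
    have hstep : π (it d p q (n + 1)).1 =
        (y + algebraMap K A c * (y - algebraMap K A x) ^ m) * π (it d p q (n + 1)).2 := by
      show π (hm d p _ _) = _ * π (hm d q _ _)
      rw [hP, hQ, hpy]
      ring
    rcases Nat.lt_or_ge m 2 with h | h
    · have hm' : m = 1 := by omega
      subst hm'
      refine ⟨(1 + e) * (1 + c) - 1, fun _ => by rw [he1 rfl]; ring, fun h => absurd h (by omega), ?_⟩
      rw [hstep, hty]
      congr 1
      simp only [map_add, map_mul, map_pow, map_sub, ← Polynomial.algebraMap_eq, AlgHom.commutes,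
        map_one, pow_one]
      rw [hy]
      have h1 : t = π X - algebraMap K A x := by
        rw [ht, map_sub, ← Polynomial.algebraMap_eq, AlgHom.commutes]
      simp only [pow_one, Nat.sub_self, pow_zero, mul_one]
      rw [← h1]
      ring
    · refine ⟨e + c, fun h1 => absurd h1 (by omega), fun _ => by rw [he2 h]; push_cast; ring, ?_⟩
      rw [hstep, hty]
      congr 1
      have hpow : (t * (1 + algebraMap K A e * t ^ (m - 1))) ^ m = t ^ m := by
        have h2 : t ^ (m - 1) = t * t ^ (m - 2) := by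
          rw [← pow_succ']; congr 1; omega
        obtain ⟨w, hw⟩ : ∃ w, (1 + algebraMap K A e * t ^ (m - 1)) ^ m = 1 + t * w := by
          have h3 := sub_dvd_pow_sub_pow (1 + algebraMap K A e * t ^ (m - 1)) 1 m
          rw [one_pow] at h3
          obtain ⟨w, hw⟩ := h3
          refine ⟨algebraMap K A e * t ^ (m - 2) * w, ?_⟩
          rw [h2] at hw ⊢
          linear_combination hw
        rw [mul_pow, hw]
        have h4 : t ^ m * (1 + t * w) = t ^ m + t ^ (m + 1) * w := by ring
        rw [h4, hT, zero_mul, add_zero]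
      rw [hpow, hy]
      simp only [map_add, map_mul, map_pow, ← Polynomial.algebraMap_eq, AlgHom.commutes]
      rw [Polynomial.algebraMap_eq, ← ht]
      ring

theorem it_eval_fix (d : ℕ) (p q : K[X]) (hp : p.natDegree ≤ d) (hq : q.natDegree ≤ d) (x : K)
    (hx : p.eval x = x * q.eval x) (hqx : q.eval x ≠ 0) (n : ℕ) :
    (it d p q n).2.eval x ≠ 0 ∧ (it d p q n).1.eval x = x * (it d p q n).2.eval x := by
  induction n with
  | zero =>
    show (1 : K[X]).eval x ≠ 0 ∧ (X : K[X]).eval x = x * (1 : K[X]).eval x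
    simp
  | succ n ih =>
    obtain ⟨h1, h2⟩ := ih
    show (hm d q _ _).eval x ≠ 0 ∧ (hm d p _ _).eval x = x * (hm d q _ _).eval x
    rw [Pool.Agent.X200.Del.eval_hm_ne _ _ _ _ _ hq h1, Pool.Agent.X200.Del.eval_hm_ne _ _ _ _ _ hp h1,
      h2, mul_div_assoc, div_self h1, mul_one]
    exact ⟨mul_ne_zero (pow_ne_zero _ h1) hqx, by rw [hx]; ring⟩

/-- the multiplicity of a fixed point does not grow under iteration, except if the multiplier is a
nontrivial root of unity -/
theorem loc [CharZero K] (d : ℕ) (p q : K[X]) (hp : p.natDegree ≤ d) (hq : q.natDegree ≤ d) (x : K)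
    (hx : p.eval x = x * q.eval x) (hqx : q.eval x ≠ 0) (hG : p - X * q ≠ 0) :
    ∃ lam : K, ∀ l : ℕ, 1 ≤ l → (lam = 1 ∨ lam ^ l ≠ 1) →
      rootMultiplicity x ((it d p q l).1 - X * (it d p q l).2) ≤ rootMultiplicity x (p - X * q) := by
  obtain ⟨u, hu, hux⟩ := exists_eq_pow_rootMultiplicity_mul_and_not_dvd (p - X * q) hG x
  set m := rootMultiplicity x (p - X * q) with hmdef
  have hm1 : 1 ≤ m := by
    rw [hmdef, Nat.one_le_iff_ne_zero, Ne, rootMultiplicity_eq_zero_iff]
    intro h
    apply hG
    apply h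
    show (p - X * q).eval x = 0
    rw [eval_sub, eval_mul, eval_X, hx, sub_self]
  have hux' : u.eval x ≠ 0 := fun h => hux (dvd_iff_isRoot.2 h)
  set c : K := u.eval x / q.eval x with hc
  have hc0 : c ≠ 0 := div_ne_zero hux' hqx
  obtain ⟨s, hs⟩ : (X - C x) ∣ u - C c * q := by
    rw [dvd_iff_isRoot]
    show (u - C c * q).eval x = 0
    rw [eval_sub, eval_mul, eval_C, hc, div_mul_cancel₀ _ hqx, sub_self]
  have hpq : p = (X + C c * (X - C x) ^ m) * q + (X - C x) ^ (m + 1) * s := by
    have e1 : p = X * q + (X - C x) ^ m * u := by rw [← hu]; ring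
    have e2 : u = C c * q + (X - C x) * s := by rw [← hs]; ring
    rw [e1, e2, pow_succ]
    ring
  refine ⟨if m = 1 then 1 + c else 1, fun l hl hlam => ?_⟩
  let I : Ideal K[X] := Ideal.span {(X - C x) ^ (m + 1)}
  let π : K[X] →ₐ[K] (K[X] ⧸ I) := Ideal.Quotient.mkₐ K I
  have hπ : ∀ F : K[X], π F = 0 ↔ (X - C x) ^ (m + 1) ∣ F := by
    intro F
    show Ideal.Quotient.mk I F = 0 ↔ _
    rw [Ideal.Quotient.eq_zero_iff_mem, Ideal.mem_span_singleton]
  have hT : π (X - C x) ^ (m + 1) = 0 := by
    rw [← map_pow, hπ]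
  obtain ⟨e, he1, he2, he3⟩ := it_cong π d p q hp hq x c m hm1 hT s hpq l
  have he : e ≠ 0 := by
    rcases Nat.lt_or_ge m 2 with h | h
    · have hm' : m = 1 := by omega
      rw [if_pos hm'] at hlam
      intro h0
      have h1 := he1 hm'
      rw [h0, add_zero] at h1
      rcases hlam with h2 | h2
      · apply hc0
        linear_combination h2
      · exact h2 h1.symm
    · rw [he2 h]
      exact mul_ne_zero (Nat.cast_ne_zero.2 (by omega)) hc0
  obtain ⟨hR, -⟩ := it_eval_fix d p q hp hq x hx hqx l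
  have hnd : ¬ (X - C x) ^ (m + 1) ∣ (it d p q l).1 - X * (it d p q l).2 := by
    intro h
    rw [← hπ] at h
    have h1 : π (C e * (X - C x) ^ m * (it d p q l).2) = 0 := by
      rw [← map_mul] at he3
      rw [map_sub, he3] at h
      rw [← h, ← map_sub]
      congr 1
      ring
    rw [hπ] at h1
    have h2 : (X - C x) ^ m * (X - C x) ∣ (X - C x) ^ m * (C e * (it d p q l).2) := by
      rw [← pow_succ]
      refine h1.trans (dvd_of_eq ?_)
      ring
    have h3 := (mul_dvd_mul_iff_left (pow_ne_zero m (X_sub_C_ne_zero x))).1 h2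
    rw [dvd_iff_isRoot] at h3
    have h4 : (C e * (it d p q l).2).eval x = 0 := h3
    rw [eval_mul, eval_C] at h4
    exact (mul_ne_zero he hR) h4
  have hne : (it d p q l).1 - X * (it d p q l).2 ≠ 0 := fun h => hnd (by rw [h]; exact dvd_zero _)
  exact (rootMultiplicity_le_iff hne x m).2 hnd

end Pool.Agent.X200.AL
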