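import Mathlib
import Pool.Agent.X200.AL.Loc

/-!
# Project AL, CYC: cycles of prime length
-/

set_option autoImplicit false

namespace Pool.Agent.X200.AL

open Finset Polynomial Pool.Agent.W277.UH
open Pool.Agent.X328.GN (hm it)
open Pool.Agent.X263.AL (S_CYC)

universe u

noncomputable section

variable {K : Type u} [Field K]

/-- the form `∑ F_i s ^ i t ^ (d - i)` -/
def fm (d : ℕ) (F : K[X]) (s t : K) : K := ∑ i ∈ range (d + 1), F.coeff i * s ^ i * t ^ (d - i)

/-- the point `(s : t)` -/
def pt (s t : K) : Option K := by classical exact if t = 0 then none else some (s / t)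

theorem pt_zero (s t : K) (h : t = 0) : pt s t = none := by
  unfold pt
  rw [if_pos h]

theorem pt_ne (s t : K) (h : t ≠ 0) : pt s t = some (s / t) := by
  unfold pt
  rw [if_neg h]

/-- `p`, `q` give a map of degree `d` -/
def Gd (d : ℕ) (p q : K[X]) : Prop := p.natDegree ≤ d ∧ q.natDegree ≤ d ∧
  ∀ s t, (s ≠ 0 ∨ t ≠ 0) → (fm d p s t ≠ 0 ∨ fm d q s t ≠ 0)

theorem fm_ne (d : ℕ) (F : K[X]) (hF : F.natDegree ≤ d) (s t : K) (h : t ≠ 0) :
    fm d F s t = t ^ d * F.eval (s / t) := by
  unfold fm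
  rw [eval_eq_sum_range' (Nat.lt_succ_of_le hF), mul_sum]
  refine sum_congr rfl fun i hi => ?_
  have hi' := Finset.mem_range.1 hi
  have e1 : t ^ d = t ^ i * t ^ (d - i) := by
    rw [← pow_add]; congr 1; omega
  rw [e1, div_pow]
  field_simp

theorem fm_zero (d : ℕ) (F : K[X]) (s : K) : fm d F s 0 = F.coeff d * s ^ d := by
  unfold fm
  rw [sum_range_succ, sum_eq_zero, zero_add, Nat.sub_self, pow_zero, mul_one]
  intro i hi
  have : d - i ≠ 0 := by have := Finset.mem_range.1 hi; omega
  rw [zero_pow this, mul_zero]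

theorem ratP1_pt (d : ℕ) (p q : K[X]) (hp : p.natDegree ≤ d) (hq : q.natDegree ≤ d) (s t : K)
    (h : s ≠ 0 ∨ t ≠ 0) : ratP1 p q d (pt s t) = pt (fm d p s t) (fm d q s t) := by
  by_cases ht : t = 0
  · have hs : s ≠ 0 := by tauto
    subst ht
    rw [pt_zero s 0 rfl, fm_zero, fm_zero]
    have hsd : s ^ d ≠ 0 := pow_ne_zero _ hs
    by_cases hqd : q.coeff d = 0
    · rw [ratP1_none0 p q d hqd, pt_zero _ _ (by rw [hqd, zero_mul])]
    · rw [ratP1_none p q d hqd, pt_ne _ _ (mul_ne_zero hqd hsd), mul_div_mul_right _ _ hsd]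
  · rw [pt_ne s t ht, fm_ne d p hp s t ht, fm_ne d q hq s t ht]
    have htd : t ^ d ≠ 0 := pow_ne_zero _ ht
    by_cases hqe : q.eval (s / t) = 0
    · rw [ratP1_some0 p q d _ hqe, pt_zero _ _ (by rw [hqe, mul_zero])]
    · rw [ratP1_some p q d _ hqe, pt_ne _ _ (mul_ne_zero htd hqe), mul_div_mul_left _ _ htd]

theorem it_eval (d : ℕ) (p q : K[X]) (h : Gd d p q) (x : K) (n : ℕ) :
    ((it d p q n).1.eval x ≠ 0 ∨ (it d p q n).2.eval x ≠ 0) ∧
      (ratP1 p q d)^[n] (some x) = pt ((it d p q n).1.eval x) ((it d p q n).2.eval x) := by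
  induction n with
  | zero =>
    refine ⟨Or.inr ?_, ?_⟩
    · show (1 : K[X]).eval x ≠ 0
      rw [eval_one]
      exact one_ne_zero
    · show some x = pt ((X : K[X]).eval x) ((1 : K[X]).eval x)
      rw [eval_X, eval_one, pt_ne _ _ one_ne_zero, div_one]
  | succ n ih =>
    obtain ⟨h1, h2⟩ := ih
    have e1 : ∀ F : K[X], (hm d F (it d p q n).1 (it d p q n).2).eval x =
        fm d F ((it d p q n).1.eval x) ((it d p q n).2.eval x) := fun F =>
      Pool.Agent.X200.Del.eval_hm _ _ _ _ _
    show ((hm d p _ _).eval x ≠ 0 ∨ (hm d q _ _).eval x ≠ 0) ∧ _ = pt ((hm d p _ _).eval x)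
      ((hm d q _ _).eval x)
    rw [e1, e1, Function.iterate_succ_apply', h2, ratP1_pt d p q h.1 h.2.1 _ _ h1]
    exact ⟨h.2.2 _ _ h1, rfl⟩

theorem natDegree_hm' (d D : ℕ) (F P Q : K[X]) (hP : P.natDegree ≤ D) (hQ : Q.natDegree ≤ D) :
    (hm d F P Q).natDegree ≤ d * D := by
  unfold hm
  refine natDegree_sum_le_of_forall_le _ _ fun i hi => ?_
  have hi' := Finset.mem_range.1 hi
  have e : d * D = i * D + (d - i) * D := by
    rw [← add_mul]; congr 1; omega
  rw [e]
  refine natDegree_mul_le_of_le ?_ (natDegree_pow_le_of_le (d - i) hQ)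
  refine (natDegree_C_mul_le _ _).trans ?_
  exact natDegree_pow_le_of_le i hP

theorem coeff_hm' (d D : ℕ) (F P Q : K[X]) (hP : P.natDegree ≤ D) (hQ : Q.natDegree ≤ D) :
    (hm d F P Q).coeff (d * D) = fm d F (P.coeff D) (Q.coeff D) := by
  unfold hm fm
  rw [finsetSum_coeff]
  refine sum_congr rfl fun i hi => ?_
  have hi' := Finset.mem_range.1 hi
  have e : d * D = i * D + (d - i) * D := by
    rw [← add_mul]; congr 1; omega
  have e1 : (P ^ i).coeff (i * D) = P.coeff D ^ i := coeff_pow_of_natDegree_le hP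
  have e2 : (Q ^ (d - i)).coeff ((d - i) * D) = Q.coeff D ^ (d - i) := coeff_pow_of_natDegree_le hQ
  rw [mul_assoc, coeff_C_mul, e, coeff_mul_add_eq_of_natDegree_le, e1, e2, mul_assoc]
  · exact natDegree_pow_le_of_le i hP
  · exact natDegree_pow_le_of_le (d - i) hQ

theorem it_none (d : ℕ) (p q : K[X]) (h : Gd d p q) (n : ℕ) :
    (it d p q n).1.natDegree ≤ d ^ n ∧ (it d p q n).2.natDegree ≤ d ^ n ∧
    ((it d p q n).1.coeff (d ^ n) ≠ 0 ∨ (it d p q n).2.coeff (d ^ n) ≠ 0) ∧
      (ratP1 p q d)^[n] none = pt ((it d p q n).1.coeff (d ^ n)) ((it d p q n).2.coeff (d ^ n)) := by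
  induction n with
  | zero =>
    refine ⟨natDegree_X_le, (natDegree_one).le.trans (Nat.zero_le _), Or.inl ?_, ?_⟩
    · show (X : K[X]).coeff 1 ≠ 0
      rw [coeff_X_one]
      exact one_ne_zero
    · show none = pt ((X : K[X]).coeff 1) ((1 : K[X]).coeff 1)
      rw [pt_zero]
      rw [coeff_one, if_neg one_ne_zero]
  | succ n ih =>
    obtain ⟨h1, h2, h3, h4⟩ := ih
    have e : d ^ (n + 1) = d * d ^ n := pow_succ' d n
    have e1 : ∀ F : K[X], (hm d F (it d p q n).1 (it d p q n).2).coeff (d ^ (n + 1)) =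
        fm d F ((it d p q n).1.coeff (d ^ n)) ((it d p q n).2.coeff (d ^ n)) := fun F => by
      rw [e]
      exact coeff_hm' _ _ _ _ _ h1 h2
    refine ⟨?_, ?_, ?_⟩
    · rw [e]
      exact natDegree_hm' _ _ _ _ _ h1 h2
    · rw [e]
      exact natDegree_hm' _ _ _ _ _ h1 h2
    show ((hm d p _ _).coeff _ ≠ 0 ∨ (hm d q _ _).coeff _ ≠ 0) ∧ _ = pt ((hm d p _ _).coeff _)
      ((hm d q _ _).coeff _)
    rw [e1, e1, Function.iterate_succ_apply', h4, ratP1_pt d p q h.1 h.2.1 _ _ h3]
    exact ⟨h.2.2 _ _ h3, rfl⟩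

theorem natDegree_G (D : ℕ) (P R : K[X]) (hP : P.natDegree ≤ D) (hR : R.natDegree ≤ D)
    (hc : R.coeff D ≠ 0) : (P - X * R).natDegree = D + 1 := by
  refine natDegree_eq_of_le_of_coeff_ne_zero ?_ ?_
  · refine (natDegree_sub_le _ _).trans (max_le (hP.trans (Nat.le_succ D)) ?_)
    refine natDegree_mul_le.trans ?_
    have := natDegree_X_le (R := K)
    omega
  · rw [coeff_sub, coeff_X_mul, coeff_eq_zero_of_natDegree_lt (Nat.lt_succ_of_le hP), zero_sub]
    exact neg_ne_zero.2 hc

/-- the count, if `∞` is not a fixed point -/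
theorem cyc_fin [CharZero K] [IsAlgClosed K] (d : ℕ) (hd : 2 ≤ d) (p q : K[X]) (h : Gd d p q)
    (hinf : ratP1 p q d none ≠ none) :
    ∃ S : Finset ℕ, S.card ≤ d + 1 ∧ ∀ l : ℕ, l.Prime → l ∉ S →
      ∃ z : Option K, (ratP1 p q d)^[l] z = z ∧ ratP1 p q d z ≠ z := by
  classical
  have hqd : q.coeff d ≠ 0 := fun h0 => hinf (ratP1_none0 p q d h0)
  have hGdeg := natDegree_G d p q h.1 h.2.1 hqd
  have hG : p - X * q ≠ 0 := by
    intro h0
    rw [h0, natDegree_zero] at hGdeg
    omega
  have hroot : ∀ x : K, (p - X * q).eval x = 0 → p.eval x = x * q.eval x ∧ q.eval x ≠ 0 := by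
    intro x hx
    rw [eval_sub, eval_mul, eval_X, sub_eq_zero] at hx
    refine ⟨hx, fun h0 => ?_⟩
    have h1 := h.2.2 x 1 (Or.inr one_ne_zero)
    rw [fm_ne d p h.1 x 1 one_ne_zero, fm_ne d q h.2.1 x 1 one_ne_zero, div_one, hx, h0] at h1
    simp at h1
  have hlam : ∀ x : K, (p - X * q).eval x = 0 → ∃ lam : K, ∀ l : ℕ, 1 ≤ l →
      (lam = 1 ∨ lam ^ l ≠ 1) →
      rootMultiplicity x ((it d p q l).1 - X * (it d p q l).2) ≤ rootMultiplicity x (p - X * q) :=
    fun x hx => loc d p q h.1 h.2.1 x (hroot x hx).1 (hroot x hx).2 hG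
  choose! lam hlam using hlam
  let g : K → ℕ := fun x =>
    if h : ∃ l : ℕ, l.Prime ∧ lam x ≠ 1 ∧ lam x ^ l = 1 then h.choose else 0
  refine ⟨(p - X * q).roots.toFinset.image g, ?_, ?_⟩
  · refine Finset.card_image_le.trans ((Multiset.toFinset_card_le _).trans ?_)
    rw [← hGdeg]
    exact card_roots' _
  · intro l hl hlS
    by_contra hcon
    push Not at hcon
    have hgood : ∀ x : K, (p - X * q).eval x = 0 → lam x = 1 ∨ lam x ^ l ≠ 1 := by
      intro x hx
      by_contra hc
      push Not at hc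
      have hex : ∃ l : ℕ, l.Prime ∧ lam x ≠ 1 ∧ lam x ^ l = 1 := ⟨l, hl, hc.1, hc.2⟩
      have hg : g x = hex.choose := dif_pos hex
      have hs := hex.choose_spec
      rw [← hg] at hs
      have hne : g x ≠ l := by
        intro h1
        apply hlS
        rw [Finset.mem_image]
        exact ⟨x, by rw [Multiset.mem_toFinset]; exact (mem_roots hG).2 hx, h1⟩
      have hcop : Nat.gcd (g x) l = 1 := (Nat.coprime_primes hs.1 hl).2 hne
      have h1 : lam x ^ Nat.gcd (g x) l = 1 := pow_gcd_eq_one.2 ⟨hs.2.2, hc.2⟩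
      rw [hcop, pow_one] at h1
      exact hc.1 h1
    obtain ⟨hPd, hRd, hlc, hnone⟩ := it_none d p q h l
    have hRl : (it d p q l).2.coeff (d ^ l) ≠ 0 := by
      intro h0
      rw [pt_zero _ _ h0] at hnone
      exact hinf (hcon none hnone)
    have hGldeg := natDegree_G (d ^ l) _ _ hPd hRd hRl
    have hGl : (it d p q l).1 - X * (it d p q l).2 ≠ 0 := by
      intro h0
      rw [h0, natDegree_zero] at hGldeg
      omega
    have hle : ((it d p q l).1 - X * (it d p q l).2).roots ≤ (p - X * q).roots := by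
      rw [Multiset.le_iff_count]
      intro x
      rw [count_roots, count_roots]
      by_cases hx : ((it d p q l).1 - X * (it d p q l).2).eval x = 0
      · have hx' : (it d p q l).1.eval x = x * (it d p q l).2.eval x := by
          rw [eval_sub, eval_mul, eval_X, sub_eq_zero] at hx
          exact hx
        obtain ⟨hnz, hit⟩ := it_eval d p q h x l
        have hRx : (it d p q l).2.eval x ≠ 0 := by
          intro h0
          rw [h0, mul_zero] at hx'
          rcases hnz with h1 | h1
          · exact h1 hx'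
          · exact h1 h0
        rw [pt_ne _ _ hRx, hx', mul_div_assoc, div_self hRx, mul_one] at hit
        have hfix := hcon (some x) hit
        have hqx : q.eval x ≠ 0 := by
          intro h0
          rw [ratP1_some0 p q d x h0] at hfix
          exact absurd hfix (by simp)
        rw [ratP1_some p q d x hqx] at hfix
        have hfix' : p.eval x / q.eval x = x := Option.some_injective _ hfix
        have hGx : (p - X * q).eval x = 0 := by
          rw [div_eq_iff hqx] at hfix'
          rw [eval_sub, eval_mul, eval_X, hfix', sub_self]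
        exact hlam x hGx l hl.one_le (hgood x hGx)
      · rw [rootMultiplicity_eq_zero hx]
        exact Nat.zero_le _
    have hcard := Multiset.card_le_card hle
    rw [IsAlgClosed.card_roots_eq_natDegree, IsAlgClosed.card_roots_eq_natDegree, hGldeg,
      hGdeg] at hcard
    have h2 : d ^ 2 ≤ d ^ l := Nat.pow_le_pow_right (by omega) hl.two_le
    have h3 : d * 2 ≤ d ^ 2 := by rw [pow_two]; exact Nat.mul_le_mul_left d hd
    omega

/-! ### moving a point which is not fixed to `∞` -/

/-- `s + 1 / z` -/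
def psi (s : K) : Option K → Option K
  | none => some s
  | some x => pt (s * x + 1) x

theorem psi_pt (s a b : K) (h : a ≠ 0 ∨ b ≠ 0) : psi s (pt a b) = pt (s * a + b) a := by
  by_cases hb : b = 0
  · have ha : a ≠ 0 := by tauto
    subst hb
    rw [pt_zero a 0 rfl, pt_ne _ _ ha, add_zero, mul_div_assoc, div_self ha, mul_one]
    rfl
  · rw [pt_ne a b hb]
    show pt (s * (a / b) + 1) (a / b) = _
    by_cases ha : a = 0
    · rw [pt_zero _ _ (by rw [ha, zero_div]), pt_zero _ _ ha]
    · rw [pt_ne _ _ (div_ne_zero ha hb), pt_ne _ _ ha]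
      congr 1
      field_simp

theorem psi_inj (s : K) : Function.Injective (psi s) := by
  have key : ∀ x : K, psi s none ≠ psi s (some x) := by
    intro x h
    have h' : some s = pt (s * x + 1) x := h
    by_cases hx : x = 0
    · rw [pt_zero _ _ hx] at h'
      exact absurd h' (by simp)
    · rw [pt_ne _ _ hx] at h'
      have h2 := Option.some_injective _ h'
      rw [eq_div_iff hx] at h2
      apply one_ne_zero (α := K)
      linear_combination -h2
  intro z w h
  rcases z with _ | x <;> rcases w with _ | y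
  · rfl
  · exact absurd h (key y)
  · exact absurd h.symm (key x)
  · have h' : pt (s * x + 1) x = pt (s * y + 1) y := h
    by_cases hx : x = 0
    · by_cases hy : y = 0
      · rw [hx, hy]
      · rw [pt_zero _ _ hx, pt_ne _ _ hy] at h'
        exact absurd h' (by simp)
    · by_cases hy : y = 0
      · rw [pt_zero _ _ hy, pt_ne _ _ hx] at h'
        exact absurd h' (by simp)
      · rw [pt_ne _ _ hx, pt_ne _ _ hy] at h'
        have h2 := Option.some_injective _ h'
        rw [div_eq_div_iff hx hy] at h2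
        congr 1
        linear_combination -h2

theorem fm_sub_C (d : ℕ) (s : K) (F G : K[X]) (a b : K) :
    fm d (F - C s * G) a b = fm d F a b - s * fm d G a b := by
  unfold fm
  rw [mul_sum, ← sum_sub_distrib]
  refine sum_congr rfl fun i _ => ?_
  rw [coeff_sub, coeff_C_mul]
  ring

theorem natDegree_P1 (s : K) : (C s * X + 1 : K[X]).natDegree ≤ 1 := by
  rw [← C_1]
  exact natDegree_linear_le

theorem fm_hm (d : ℕ) (s : K) (F : K[X]) (a b : K) :
    fm d (hm d F (C s * X + 1) X) a b = fm d F (s * a + b) a := by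
  have hdeg : (hm d F (C s * X + 1) X).natDegree ≤ d :=
    Pool.Agent.X200.Del.natDegree_hm _ _ _ _ (natDegree_P1 s) natDegree_X_le
  by_cases hb : b = 0
  · subst hb
    rw [fm_zero, Pool.Agent.X200.Del.coeff_hm _ _ _ _ (natDegree_P1 s) natDegree_X_le coeff_X_one,
      sum_mul]
    unfold fm
    refine sum_congr rfl fun i hi => ?_
    have hi' := Finset.mem_range.1 hi
    have e : (C s * X + 1 : K[X]).coeff 1 = s := by
      rw [coeff_add, coeff_C_mul, coeff_X_one, coeff_one, if_neg one_ne_zero]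
      ring
    have e1 : a ^ d = a ^ i * a ^ (d - i) := by
      rw [← pow_add]; congr 1; omega
    rw [e, e1, add_zero, mul_pow]
    ring
  · rw [fm_ne _ _ hdeg _ _ hb, Pool.Agent.X200.Del.eval_hm, mul_sum]
    unfold fm
    refine sum_congr rfl fun i hi => ?_
    have hi' := Finset.mem_range.1 hi
    have e1 : b ^ d = b ^ i * b ^ (d - i) := by
      rw [← pow_add]; congr 1; omega
    have e2 : (C s * X + 1 : K[X]).eval (a / b) = (s * a + b) / b := by
      rw [eval_add, eval_mul, eval_C, eval_X, eval_one]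
      field_simp
    rw [e1, e2, eval_X, div_pow, div_pow]
    field_simp

/-- the conjugate -/
def pc (d : ℕ) (s : K) (q : K[X]) : K[X] := hm d q (C s * X + 1) X

def qc (d : ℕ) (s : K) (p q : K[X]) : K[X] :=
  hm d p (C s * X + 1) X - C s * hm d q (C s * X + 1) X

theorem Gd_c (d : ℕ) (s : K) (p q : K[X]) (h : Gd d p q) : Gd d (pc d s q) (qc d s p q) := by
  have hdeg : ∀ F : K[X], (hm d F (C s * X + 1) X).natDegree ≤ d := fun F =>
    Pool.Agent.X200.Del.natDegree_hm _ _ _ _ (natDegree_P1 s) natDegree_X_le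
  refine ⟨hdeg q, ?_, ?_⟩
  · unfold qc
    exact (natDegree_sub_le _ _).trans (max_le (hdeg p) ((natDegree_C_mul_le _ _).trans (hdeg q)))
  · intro a b hab
    unfold pc qc
    rw [fm_sub_C, fm_hm, fm_hm]
    have h1 : s * a + b ≠ 0 ∨ a ≠ 0 := by
      by_cases ha : a = 0
      · left
        rw [ha, mul_zero, zero_add]
        tauto
      · right; exact ha
    by_cases h2 : fm d q (s * a + b) a = 0
    · right
      rw [h2, mul_zero, sub_zero]
      rcases h.2.2 _ _ h1 with h3 | h3
      · exact h3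
      · exact absurd h2 h3
    · left; exact h2

theorem semi (d : ℕ) (s : K) (p q : K[X]) (h : Gd d p q) :
    Function.Semiconj (psi s) (ratP1 (pc d s q) (qc d s p q) d) (ratP1 p q d) := by
  have h' := Gd_c d s p q h
  have main : ∀ a b : K, (a ≠ 0 ∨ b ≠ 0) → psi s (ratP1 (pc d s q) (qc d s p q) d (pt a b)) =
      ratP1 p q d (psi s (pt a b)) := by
    intro a b hab
    have h1 : s * a + b ≠ 0 ∨ a ≠ 0 := by
      by_cases ha : a = 0
      · left
        rw [ha, mul_zero, zero_add]
        tauto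
      · right; exact ha
    rw [ratP1_pt d _ _ h'.1 h'.2.1 _ _ hab, psi_pt _ _ _ (h'.2.2 _ _ hab), psi_pt _ _ _ hab,
      ratP1_pt d p q h.1 h.2.1 _ _ h1]
    unfold pc qc
    rw [fm_sub_C, fm_hm, fm_hm]
    congr 1
    ring
  intro z
  rcases z with _ | x
  · have := main 1 0 (Or.inl one_ne_zero)
    rwa [pt_zero 1 0 rfl] at this
  · have := main x 1 (Or.inr one_ne_zero)
    rwa [pt_ne x 1 one_ne_zero, div_one] at this

theorem Gd_of (d : ℕ) (p q : K[X]) (hpq : IsCoprime p q) (hdeg : max p.natDegree q.natDegree = d) :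
    Gd d p q := by
  have hp : p.natDegree ≤ d := (le_max_left _ _).trans hdeg.le
  have hq : q.natDegree ≤ d := (le_max_right _ _).trans hdeg.le
  refine ⟨hp, hq, fun s t hst => ?_⟩
  by_contra hcon
  push Not at hcon
  obtain ⟨h1, h2⟩ := hcon
  by_cases ht : t = 0
  · have hs : s ≠ 0 := by tauto
    subst ht
    rw [fm_zero] at h1 h2
    have hsd : s ^ d ≠ 0 := pow_ne_zero _ hs
    have e1 : p.coeff d = 0 := (mul_eq_zero.1 h1).resolve_right hsd
    have e2 : q.coeff d = 0 := (mul_eq_zero.1 h2).resolve_right hsd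
    rcases max_choice p.natDegree q.natDegree with h3 | h3
    · rw [← hdeg, h3] at e1
      have h4 : p = 0 := leadingCoeff_eq_zero.1 e1
      rw [h4] at hpq hdeg
      rw [isCoprime_zero_left] at hpq
      rw [natDegree_zero, natDegree_eq_zero_of_isUnit hpq, max_self] at hdeg
      rw [← hdeg] at e2
      obtain ⟨r, hr, hr2⟩ := Polynomial.isUnit_iff.1 hpq
      rw [← hr2, coeff_C_zero] at e2
      exact hr.ne_zero e2
    · rw [← hdeg, h3] at e2
      have h4 : q = 0 := leadingCoeff_eq_zero.1 e2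
      rw [h4] at hpq hdeg
      rw [isCoprime_zero_right] at hpq
      rw [natDegree_zero, natDegree_eq_zero_of_isUnit hpq, max_self] at hdeg
      rw [← hdeg] at e1
      obtain ⟨r, hr, hr2⟩ := Polynomial.isUnit_iff.1 hpq
      rw [← hr2, coeff_C_zero] at e1
      exact hr.ne_zero e1
  · rw [fm_ne d p hp s t ht] at h1
    rw [fm_ne d q hq s t ht] at h2
    have htd : t ^ d ≠ 0 := pow_ne_zero _ ht
    have e1 := (mul_eq_zero.1 h1).resolve_left htd
    have e2 := (mul_eq_zero.1 h2).resolve_left htd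
    obtain ⟨u, v, huv⟩ := hpq
    have h3 := congrArg (eval (s / t)) huv
    rw [eval_add, eval_mul, eval_mul, e1, e2, eval_one] at h3
    simp at h3

theorem t_CYC : S_CYC.{u} := by
  intro K _ _ _ d hd p q hpq hdeg
  have h := Gd_of d p q hpq hdeg
  by_cases hinf : ratP1 p q d none = none
  · have hG : p - X * q ≠ 0 := by
      intro h0
      have h1 : p = X * q := sub_eq_zero.1 h0
      have h2 : IsUnit q := by
        rw [h1] at hpq
        exact hpq.isUnit_of_dvd' (dvd_mul_left q X) dvd_rfl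
      have h3 : q.natDegree = 0 := natDegree_eq_zero_of_isUnit h2
      have h4 : p.natDegree ≤ 1 := by
        rw [h1]
        refine natDegree_mul_le.trans ?_
        have := natDegree_X_le (R := K)
        omega
      have h5 : max p.natDegree q.natDegree ≤ 1 := max_le h4 (by omega)
      omega
    obtain ⟨s, hs⟩ : ∃ s : K, (p - X * q).eval s ≠ 0 := by
      by_contra hcon
      push Not at hcon
      exact hG (Polynomial.funext fun r => by rw [hcon r, eval_zero])
    have hs' : ratP1 p q d (some s) ≠ some s := by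
      intro h0
      apply hs
      by_cases hq : q.eval s = 0
      · rw [ratP1_some0 p q d s hq] at h0
        exact absurd h0 (by simp)
      · rw [ratP1_some p q d s hq] at h0
        have h1 := Option.some_injective _ h0
        rw [div_eq_iff hq] at h1
        rw [eval_sub, eval_mul, eval_X, h1, sub_self]
    have hsemi := semi d s p q h
    have hnf : ratP1 (pc d s q) (qc d s p q) d none ≠ none := by
      intro h0
      have h1 := hsemi none
      rw [h0] at h1
      exact hs' h1.symm
    obtain ⟨S, hS, hS2⟩ := cyc_fin d hd _ _ (Gd_c d s p q h) hnf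
    refine ⟨S, hS, fun l hl hlS => ?_⟩
    obtain ⟨z, hz1, hz2⟩ := hS2 l hl hlS
    refine ⟨psi s z, ?_, ?_⟩
    · rw [← (hsemi.iterate_right l) z, hz1]
    · intro h0
      apply hz2
      apply psi_inj s
      rw [hsemi z, h0]
  · exact cyc_fin d hd p q h hinf

end

end Pool.Agent.X200.AL
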